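import Pool.Agent.Q107.TotCrit.Count

/-!
# Large good sets give large cliques
-/

set_option autoImplicit false
set_option linter.unusedSectionVars false

namespace Pool.Agent.Q107.TotCrit

open Finset Classical

variable {V : Type*} [Fintype V]

/-- the size of a good set which is needed for a clique of order `a` -/
def sz (R : ℕ) : ℕ → ℕ
  | 0 => 1
  | a + 1 => 2 * (R * sz R a) + 1

lemma sz_pos (R a : ℕ) : 1 ≤ sz R a := by
  cases a with
  | zero => exact le_rfl
  | succ a => unfold sz; omega

/-- greedy choice of a set of pairwise related elements -/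
lemma greedy {α : Type*} (A : Finset α) (Q : α → α → Prop) (hQ : ∀ x y, Q x y → Q y x)
    (hirr : ∀ x, ¬ Q x x) (e : ℕ)
    (he : ∀ u ∈ A, (A.filter fun v => ¬ Q u v).card ≤ e) :
    ∀ s : ℕ, s * e < A.card → ∃ K ⊆ A, K.card = s ∧ ∀ u ∈ K, ∀ v ∈ K, u ≠ v → Q u v := by
  intro s
  induction s with
  | zero => exact fun _ => ⟨∅, empty_subset _, rfl, fun u hu => absurd hu (notMem_empty u)⟩
  | succ s ih =>
    intro hs
    have hse : s * e ≤ (s + 1) * e := Nat.mul_le_mul_right _ (by omega)
    obtain ⟨K, hKA, hKs, hK⟩ := ih (by omega)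
    have h1 : (K.biUnion fun u => A.filter fun v => ¬ Q u v).card < A.card := by
      calc (K.biUnion fun u => A.filter fun v => ¬ Q u v).card
          ≤ K.card * e := card_biUnion_le_card_mul _ _ _ fun u hu => he u (hKA hu)
        _ = s * e := by rw [hKs]
        _ < A.card := by omega
    obtain ⟨v, hvA, hv⟩ := exists_mem_notMem_of_card_lt_card h1
    have hv' : ∀ u ∈ K, Q u v := by
      intro u hu
      by_contra hcon
      exact hv (mem_biUnion.2 ⟨u, hu, mem_filter.2 ⟨hvA, hcon⟩⟩)
    have hvK : v ∉ K := fun h => hirr v (hv' v h)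
    refine ⟨insert v K, ?_, ?_, ?_⟩
    · intro x hx
      rcases mem_insert.1 hx with rfl | hx
      · exact hvA
      · exact hKA hx
    · rw [card_insert_of_notMem hvK, hKs]
    · intro x hx y hy hxy
      rcases mem_insert.1 hx with hx | hx
      · rcases mem_insert.1 hy with hy | hy
        · exact absurd (hx.trans hy.symm) hxy
        · rw [hx]
          exact hQ _ _ (hv' y hy)
      · rcases mem_insert.1 hy with hy | hy
        · rw [hy]
          exact hv' x hx
        · exact hK x hx y hy hxy

/-- in a tournament (possibly with double arcs) some vertex has large in-degree -/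
lemma tournament {α : Type*} (K : Finset α) (P : α → α → Prop)
    (hP : ∀ x ∈ K, ∀ y ∈ K, x ≠ y → P x y ∨ P y x) (h : ℕ) (hK : 2 * h + 1 ≤ K.card) :
    ∃ y ∈ K, h ≤ (K.filter fun x => P x y).card := by
  by_contra hcon
  push Not at hcon
  have h1 : ∑ x ∈ K, (K.filter fun y => P x y).card = ∑ y ∈ K, (K.filter fun x => P x y).card :=
    sum_card_bipartiteAbove_eq_sum_card_bipartiteBelow _
  have h2 : ∀ x ∈ K, K.card ≤
      (K.filter fun y => P x y).card + (K.filter fun y => P y x).card + 1 := by
    intro x hx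
    have h3 : K ⊆ insert x ((K.filter fun y => P x y) ∪ (K.filter fun y => P y x)) := by
      intro y hy
      rw [mem_insert, mem_union, mem_filter, mem_filter]
      by_cases hyx : y = x
      · exact Or.inl hyx
      · rcases hP x hx y hy (Ne.symm hyx) with h | h
        · exact Or.inr (Or.inl ⟨hy, h⟩)
        · exact Or.inr (Or.inr ⟨hy, h⟩)
    have h4 := card_le_card h3
    have h5 := card_insert_le x ((K.filter fun y => P x y) ∪ (K.filter fun y => P y x))
    have h6 := card_union_le (K.filter fun y => P x y) (K.filter fun y => P y x)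
    omega
  have h3 : ∑ _x ∈ K, K.card ≤ ∑ x ∈ K, ((K.filter fun y => P x y).card +
      (K.filter fun y => P y x).card + 1) := sum_le_sum h2
  rw [sum_add_distrib, sum_add_distrib, h1, sum_const, sum_const, smul_eq_mul, smul_eq_mul] at h3
  have hne : K.Nonempty := card_pos.1 (by omega)
  have h4 : ∑ y ∈ K, (K.filter fun x => P x y).card + K.card ≤ K.card * h := by
    calc ∑ y ∈ K, (K.filter fun x => P x y).card + K.card
        = ∑ y ∈ K, ((K.filter fun x => P x y).card + 1) := by
          rw [sum_add_distrib, sum_const, smul_eq_mul, mul_one]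
      _ ≤ ∑ _y ∈ K, h := sum_le_sum fun y hy => hcon y hy
      _ = K.card * h := by rw [sum_const, smul_eq_mul]
  have h5 : K.card * (2 * h + 1) ≤ K.card * K.card := Nat.mul_le_mul_left _ hK
  nlinarith

/-- a good set of size `sz R a` whose members have at most `R` private vertices gives a clique of
order `a` among the private vertices -/
lemma clique (G : SimpleGraph V) (U : Finset V) (R : ℕ) (hR1 : 1 ≤ R) (a : ℕ) :
    ∀ K : Finset V, K ⊆ U → (∀ v ∈ K, (priv G U v).card ≤ R) →
      (∀ u ∈ K, ∀ v ∈ K, u ≠ v → Good G U u v) → sz R a ≤ K.card →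
      ∃ t : Finset V, (∀ b ∈ t, ∃ v ∈ K, b ∈ priv G U v) ∧ G.IsNClique a t := by
  induction a with
  | zero =>
    intro K _ _ _ _
    refine ⟨∅, fun b hb => absurd hb (notMem_empty b), ?_⟩
    rw [SimpleGraph.isNClique_iff]
    simp
  | succ a ih =>
    intro K hKU hR hK hsz
    unfold sz at hsz
    obtain ⟨P, hP⟩ : ∃ P : V → V → Prop,
        ∀ u v, P u v ↔ ∃ b ∈ priv G U v, Witness G u b v := ⟨_, fun _ _ => Iff.rfl⟩
    obtain ⟨v, hvK, hv⟩ := tournament K P (by
        intro x hx y hy hxy
        rw [hP, hP]
        exact (hK x hx y hy hxy).2) (R * sz R a) hsz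
    -- pigeonhole
    obtain ⟨b, hb, hbc⟩ : ∃ b ∈ priv G U v, sz R a ≤ (K.filter fun u => Witness G u b v).card := by
      by_contra hcon
      push Not at hcon
      have h1 : (K.filter fun x => P x v) ⊆
          (priv G U v).biUnion fun b => K.filter fun u => Witness G u b v := by
        intro u hu
        rw [mem_filter, hP] at hu
        obtain ⟨huK, b, hb, hw⟩ := hu
        exact mem_biUnion.2 ⟨b, hb, mem_filter.2 ⟨huK, hw⟩⟩
      have h2 := card_le_card h1
      have h3 : ((priv G U v).biUnion fun b => K.filter fun u => Witness G u b v).card ≤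
          (priv G U v).card * (sz R a - 1) :=
        card_biUnion_le_card_mul _ _ _ fun b hb => by
          have := hcon b hb
          omega
      have h4 : (priv G U v).card * (sz R a - 1) ≤ R * (sz R a - 1) :=
        Nat.mul_le_mul_right _ (hR v hvK)
      have h5 := sz_pos R a
      have h7 : R * (sz R a - 1) + R = R * sz R a := by
        have : sz R a = (sz R a - 1) + 1 := by omega
        conv_rhs => rw [this]
        ring
      omega
    obtain ⟨t, ht, htc⟩ := ih (K.filter fun u => Witness G u b v)
      ((filter_subset _ _).trans hKU) (fun u hu => hR u (mem_of_mem_filter u hu))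
      (fun u hu w hw => hK u (mem_of_mem_filter u hu) w (mem_of_mem_filter w hw)) hbc
    refine ⟨insert b t, ?_, ?_⟩
    · intro x hx
      rcases mem_insert.1 hx with rfl | hx
      · exact ⟨v, hvK, hb⟩
      · obtain ⟨u, hu, hxu⟩ := ht x hx
        exact ⟨u, mem_of_mem_filter u hu, hxu⟩
    · refine htc.insert ?_
      intro x hx
      obtain ⟨u, hu, hxu⟩ := ht x hx
      rw [mem_filter] at hu
      have hw := hu.2
      unfold priv at hxu
      rw [mem_filter] at hxu
      have hu' : u ∈ non G U x := by rw [hxu.2]; exact mem_singleton_self u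
      unfold non at hu'
      rw [mem_filter] at hu'
      have hxv : x ≠ v := by
        intro hxv
        have h1 : x ∈ non G U x := by
          unfold non
          rw [mem_filter, hxv]
          exact ⟨hKU hvK, fun h => G.loopless.irrefl v h⟩
        rw [hxu.2, mem_singleton, hxv] at h1
        exact hw.ne h1.symm
      rcases hw.all x hxv with h | h
      · exact absurd h.symm hu'.2
      · exact h.symm

/-- The main step: a set `U` with `n ≤ C |U|` and tiny degrees inside `U` is small. -/
theorem small_of_sparse (G : SimpleGraph V) (hW : Witnessed G) (p : ℕ) (hp : G.CliqueFree p)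
    (C : ℕ) (hC : 1 ≤ C) (U : Finset V) (hn : Fintype.card V ≤ C * U.card)
    (hK : ∀ u ∈ U, (80 * C * sz (4 * C) p) * (nb G U u).card ≤ U.card) :
    U.card ≤ 4 * sz (4 * C) p + 4 := by
  by_contra hcon
  push Not at hcon
  set s := sz (4 * C) p with hs
  have hs1 : 1 ≤ s := sz_pos _ _
  set M := U.card with hM
  have hCs : 1 ≤ C * s := Nat.mul_pos hC hs1
  have hK4 : 4 ≤ 80 * C * s := by nlinarith
  -- the sum of the numbers of exceptions
  set m : V → ℕ := fun u => (nb G U u).card + (bad G U u).card + (bad' G U u).card with hm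
  have h1 : (80 * C * s) * ∑ u ∈ U, (nb G U u).card ≤ M * M := by
    rw [mul_sum]
    calc ∑ u ∈ U, 80 * C * s * (nb G U u).card ≤ ∑ _u ∈ U, M := sum_le_sum hK
      _ = M * M := by rw [sum_const, smul_eq_mul]
  have h2 := sum_bad G U (80 * C * s) hK
  have h3 := sum_bad' G U
  have h4 : (80 * C * s) * ∑ u ∈ U, m u ≤ 5 * C * (M * M) := by
    have e1 : ∑ u ∈ U, m u = ∑ u ∈ U, (nb G U u).card + ∑ u ∈ U, (bad G U u).card +
        ∑ u ∈ U, (bad G U u).card := by
      rw [hm]
      simp only [sum_add_distrib]
      rw [h3]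
    rw [e1]
    have e2 : 2 * M * Fintype.card V ≤ 2 * M * (C * M) := Nat.mul_le_mul_left _ hn
    have e3 : M * M ≤ C * (M * M) := Nat.le_mul_of_pos_left _ hC
    calc 80 * C * s * (∑ u ∈ U, (nb G U u).card + ∑ u ∈ U, (bad G U u).card +
          ∑ u ∈ U, (bad G U u).card)
        = 80 * C * s * ∑ u ∈ U, (nb G U u).card + 80 * C * s * ∑ u ∈ U, (bad G U u).card +
          80 * C * s * ∑ u ∈ U, (bad G U u).card := by ring
      _ ≤ M * M + 2 * M * (C * M) + 2 * M * (C * M) := by
          have e4 := h2.trans e2
          omega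
      _ = M * M + 4 * (C * (M * M)) := by ring
      _ ≤ 5 * C * (M * M) := by
          calc M * M + 4 * (C * (M * M)) ≤ C * (M * M) + 4 * (C * (M * M)) := by omega
            _ = 5 * C * (M * M) := by ring
  have h5 : 16 * s * ∑ u ∈ U, m u ≤ M * M := by
    have : (5 * C) * (16 * s * ∑ u ∈ U, m u) ≤ (5 * C) * (M * M) := by
      calc (5 * C) * (16 * s * ∑ u ∈ U, m u) = (80 * C * s) * ∑ u ∈ U, m u := by ring
        _ ≤ _ := h4
    exact Nat.le_of_mul_le_mul_left this (by omega)
  -- few vertices with many exceptions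
  set X := U.filter fun u => M ≤ 4 * s * m u with hX
  have h6 : 4 * X.card ≤ M := by
    have e1 : X.card * M ≤ 4 * s * ∑ u ∈ U, m u := by
      calc X.card * M = ∑ _u ∈ X, M := by rw [sum_const, smul_eq_mul]
        _ ≤ ∑ u ∈ X, 4 * s * m u := sum_le_sum fun u hu => by
            rw [hX, mem_filter] at hu
            exact hu.2
        _ ≤ ∑ u ∈ U, 4 * s * m u := sum_le_sum_of_subset (filter_subset _ _)
        _ = 4 * s * ∑ u ∈ U, m u := by rw [mul_sum]
    have e2 : M * (4 * X.card) ≤ M * M := by
      calc M * (4 * X.card) = 4 * (X.card * M) := by ring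
        _ ≤ 4 * (4 * s * ∑ u ∈ U, m u) := Nat.mul_le_mul_left _ e1
        _ = 16 * s * ∑ u ∈ U, m u := by ring
        _ ≤ M * M := h5
    exact Nat.le_of_mul_le_mul_left e2 (by omega)
  -- few vertices with many private vertices
  set Y := U.filter fun v => 4 * C < (priv G U v).card with hY
  have h7 : 4 * Y.card ≤ M := by
    have e1 : Y.card * (4 * C) ≤ C * M := by
      calc Y.card * (4 * C) = ∑ _v ∈ Y, 4 * C := by rw [sum_const, smul_eq_mul]
        _ ≤ ∑ v ∈ Y, (priv G U v).card := sum_le_sum fun v hv => by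
            rw [hY, mem_filter] at hv
            exact hv.2.le
        _ ≤ ∑ v ∈ U, (priv G U v).card := sum_le_sum_of_subset (filter_subset _ _)
        _ ≤ Fintype.card V := sum_priv G U
        _ ≤ C * M := hn
    have e2 : C * (4 * Y.card) ≤ C * M := by
      calc C * (4 * Y.card) = Y.card * (4 * C) := by ring
        _ ≤ _ := e1
    exact Nat.le_of_mul_le_mul_left e2 hC
  set A := U \ (X ∪ Y) with hA
  have h8 : M ≤ 2 * A.card := by
    have e1 := card_union_le X Y
    have e2 : U.card - (X ∪ Y).card ≤ A.card := le_card_sdiff _ _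
    omega
  set e := (M - 1) / (4 * s) + 1 with he
  have h9 : ∀ u ∈ A, (A.filter fun v => ¬ Good G U u v).card ≤ e := by
    intro u hu
    rw [hA, mem_sdiff, mem_union] at hu
    obtain ⟨huU, hu⟩ := hu
    have e1 : ¬ M ≤ 4 * s * m u := fun h => hu (Or.inl (mem_filter.2 ⟨huU, h⟩))
    have e2 : m u ≤ (M - 1) / (4 * s) := by
      rw [Nat.le_div_iff_mul_le (by omega)]
      have : m u * (4 * s) = 4 * s * m u := by ring
      omega
    have e3 := not_good G hW U (80 * C * s) hK4 (by omega) hK u huU
    have e4 : (A.filter fun v => ¬ Good G U u v).card ≤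
        (U.filter fun v => ¬ Good G U u v).card :=
      card_le_card (filter_subset_filter _ sdiff_subset)
    have e5 : m u = (nb G U u).card + (bad G U u).card + (bad' G U u).card := rfl
    omega
  have h10 : s * e < A.card := by
    have e1 : 4 * s * ((M - 1) / (4 * s)) ≤ M - 1 := Nat.mul_div_le _ _
    have e2 : 4 * (s * e) = 4 * s * ((M - 1) / (4 * s)) + 4 * s := by rw [he]; ring
    omega
  obtain ⟨K, hKA, hKs, hKg⟩ := greedy A (Good G U) (fun x y h => h.symm)
    (fun x h => h.1 rfl) e h9 s h10
  have hKU : K ⊆ U := hKA.trans sdiff_subset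
  obtain ⟨t, _, ht⟩ := clique G U (4 * C) (by omega) p K hKU (by
    intro v hv
    have hvA := hKA hv
    rw [hA, mem_sdiff, mem_union] at hvA
    by_contra hcon
    push Not at hcon
    exact hvA.2 (Or.inr (mem_filter.2 ⟨hvA.1, hcon⟩))) hKg (by rw [hKs])
  exact hp t ht

end Pool.Agent.Q107.TotCrit
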