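import Pool.Agent.Q107.TotCrit.Defs

/-!
# Counting witnesses in a sparse set `U`
-/

set_option autoImplicit false
set_option linter.unusedSectionVars false

namespace Pool.Agent.Q107.TotCrit

open Finset Classical

variable {V : Type*} [Fintype V]

/-- neighbours in `U` -/
noncomputable def nb (G : SimpleGraph V) (U : Finset V) (u : V) : Finset V :=
  U.filter fun w => G.Adj u w

/-- non-neighbours of `b` in `U` -/
noncomputable def non (G : SimpleGraph V) (U : Finset V) (b : V) : Finset V :=
  U.filter fun w => ¬ G.Adj w b

/-- the vertices `b` with `v` as the only non-neighbour in `U` -/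
noncomputable def priv (G : SimpleGraph V) (U : Finset V) (v : V) : Finset V :=
  univ.filter fun b => non G U b = {v}

/-- `v` with a witness `(u, b, v)` such that `b` has at least two non-neighbours in `U` -/
noncomputable def bad (G : SimpleGraph V) (U : Finset V) (u : V) : Finset V :=
  U.filter fun v => ∃ b, 2 ≤ (non G U b).card ∧ Witness G u b v

noncomputable def bad' (G : SimpleGraph V) (U : Finset V) (u : V) : Finset V :=
  U.filter fun v => ∃ b, 2 ≤ (non G U b).card ∧ Witness G v b u

/-- the pair `u, v` has a witness with a private vertex -/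
def Good (G : SimpleGraph V) (U : Finset V) (u v : V) : Prop :=
  u ≠ v ∧ ((∃ b ∈ priv G U v, Witness G u b v) ∨ ∃ b ∈ priv G U u, Witness G v b u)

lemma Good.symm {G : SimpleGraph V} {U : Finset V} {u v : V} (h : Good G U u v) :
    Good G U v u := ⟨h.1.symm, h.2.symm⟩

lemma Witness.unique {G : SimpleGraph V} {u b v v' : V} (h : Witness G u b v)
    (h' : Witness G u b v') : v = v' := by
  by_contra hne
  rcases h'.all v hne with h1 | h1
  · exact h.uv h1.symm
  · exact h.vb h1

lemma Witness.mem_non {G : SimpleGraph V} {U : Finset V} {u b v : V} (h : Witness G u b v)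
    (hv : v ∈ U) : v ∈ non G U b := by
  unfold non
  rw [mem_filter]
  exact ⟨hv, h.vb⟩

/-- all non-neighbours of `b` except `v` are neighbours of `u` -/
lemma Witness.non_subset {G : SimpleGraph V} {U : Finset V} {u b v : V} (h : Witness G u b v) :
    non G U b ⊆ insert v (non G U b ∩ nb G U u) := by
  intro w hw
  rw [mem_insert]
  by_cases hwv : w = v
  · exact Or.inl hwv
  · right
    rw [mem_inter]
    refine ⟨hw, ?_⟩
    unfold non at hw
    rw [mem_filter] at hw
    unfold nb
    rw [mem_filter]
    refine ⟨hw.1, ?_⟩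
    rcases h.all w hwv with h1 | h1
    · exact h1.symm
    · exact absurd h1 hw.2

/-- a vertex `b` with at least two non-neighbours in `U` is in few witnesses -/
lemma few (G : SimpleGraph V) (U : Finset V) (K : ℕ) (hK : ∀ u ∈ U, K * (nb G U u).card ≤ U.card)
    (b : V) (hb : 2 ≤ (non G U b).card) :
    K * (U.filter fun u => ∃ v, Witness G u b v).card ≤ 2 * U.card := by
  set P := U.filter fun u => ∃ v, Witness G u b v with hP
  have h1 : ∀ u ∈ P, (non G U b).card ≤ 2 * (non G U b ∩ nb G U u).card := by
    intro u hu
    rw [hP, mem_filter] at hu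
    obtain ⟨_, v, hv⟩ := hu
    have h2 := card_le_card (hv.non_subset (U := U))
    have h3 := card_insert_le v (non G U b ∩ nb G U u)
    omega
  have h2 : ∑ u ∈ U, (non G U b ∩ nb G U u).card = ∑ s ∈ non G U b, (nb G U s).card := by
    have e1 : ∀ u ∈ U, (non G U b ∩ nb G U u).card =
        ((non G U b).bipartiteAbove (fun u s => G.Adj u s) u).card := by
      intro u _
      congr 1
      ext s
      simp only [nb, non, bipartiteAbove, mem_inter, mem_filter]
      tauto
    have e2 : ∀ s ∈ non G U b, (nb G U s).card =
        (U.bipartiteBelow (fun u s => G.Adj u s) s).card := by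
      intro s _
      congr 1
      ext u
      simp only [nb, bipartiteBelow, mem_filter, G.adj_comm]
    rw [sum_congr rfl e1, sum_congr rfl e2]
    exact sum_card_bipartiteAbove_eq_sum_card_bipartiteBelow _
  have h3 : P.card * (non G U b).card ≤ 2 * ∑ s ∈ non G U b, (nb G U s).card := by
    calc P.card * (non G U b).card = ∑ _u ∈ P, (non G U b).card := by
          rw [sum_const, smul_eq_mul]
      _ ≤ ∑ u ∈ P, 2 * (non G U b ∩ nb G U u).card := sum_le_sum h1
      _ ≤ ∑ u ∈ U, 2 * (non G U b ∩ nb G U u).card :=
          sum_le_sum_of_subset (filter_subset _ _)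
      _ = 2 * ∑ s ∈ non G U b, (nb G U s).card := by rw [← mul_sum, h2]
  have h4 : K * ∑ s ∈ non G U b, (nb G U s).card ≤ (non G U b).card * U.card := by
    rw [mul_sum]
    calc ∑ s ∈ non G U b, K * (nb G U s).card ≤ ∑ _s ∈ non G U b, U.card :=
          sum_le_sum fun s hs => hK s (mem_of_mem_filter s hs)
      _ = (non G U b).card * U.card := by rw [sum_const, smul_eq_mul]
  have h5 : (non G U b).card * (K * P.card) ≤ (non G U b).card * (2 * U.card) := by
    calc (non G U b).card * (K * P.card) = K * (P.card * (non G U b).card) := by ring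
      _ ≤ K * (2 * ∑ s ∈ non G U b, (nb G U s).card) := Nat.mul_le_mul_left _ h3
      _ = 2 * (K * ∑ s ∈ non G U b, (nb G U s).card) := by ring
      _ ≤ 2 * ((non G U b).card * U.card) := Nat.mul_le_mul_left _ h4
      _ = (non G U b).card * (2 * U.card) := by ring
  exact Nat.le_of_mul_le_mul_left h5 (by omega)

lemma sum_bad (G : SimpleGraph V) (U : Finset V) (K : ℕ)
    (hK : ∀ u ∈ U, K * (nb G U u).card ≤ U.card) :
    K * ∑ u ∈ U, (bad G U u).card ≤ 2 * U.card * Fintype.card V := by
  set B : Finset V := univ.filter fun b => 2 ≤ (non G U b).card with hB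
  have h1 : ∀ u ∈ U, (bad G U u).card ≤
      (B.bipartiteAbove (fun u b => ∃ v, Witness G u b v) u).card := by
    intro u _
    have hch : ∀ v ∈ bad G U u, ∃ b, 2 ≤ (non G U b).card ∧ Witness G u b v := by
      intro v hv
      unfold bad at hv
      rw [mem_filter] at hv
      exact hv.2
    choose! f hf using hch
    refine card_le_card_of_injOn f ?_ ?_
    · intro v hv
      rw [mem_coe] at hv
      rw [mem_coe, mem_bipartiteAbove, hB, mem_filter]
      exact ⟨⟨mem_univ _, (hf v hv).1⟩, v, (hf v hv).2⟩
    · intro v hv v' hv' hvv'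
      rw [mem_coe] at hv hv'
      have e1 := (hf v hv).2
      have e2 := (hf v' hv').2
      rw [hvv'] at e1
      exact e1.unique e2
  have h2 : ∑ u ∈ U, (B.bipartiteAbove (fun u b => ∃ v, Witness G u b v) u).card =
      ∑ b ∈ B, (U.bipartiteBelow (fun u b => ∃ v, Witness G u b v) b).card :=
    sum_card_bipartiteAbove_eq_sum_card_bipartiteBelow _
  calc K * ∑ u ∈ U, (bad G U u).card
      ≤ K * ∑ b ∈ B, (U.bipartiteBelow (fun u b => ∃ v, Witness G u b v) b).card := by
        rw [← h2]
        exact Nat.mul_le_mul_left _ (sum_le_sum h1)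
    _ = ∑ b ∈ B, K * (U.bipartiteBelow (fun u b => ∃ v, Witness G u b v) b).card := by
        rw [mul_sum]
    _ ≤ ∑ _b ∈ B, 2 * U.card := sum_le_sum fun b hb => few G U K hK b (by
        rw [hB, mem_filter] at hb
        exact hb.2)
    _ = B.card * (2 * U.card) := by rw [sum_const, smul_eq_mul]
    _ ≤ Fintype.card V * (2 * U.card) := Nat.mul_le_mul_right _ (card_le_univ _)
    _ = 2 * U.card * Fintype.card V := by ring

lemma sum_bad' (G : SimpleGraph V) (U : Finset V) :
    ∑ u ∈ U, (bad' G U u).card = ∑ u ∈ U, (bad G U u).card := by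
  have := sum_card_bipartiteAbove_eq_sum_card_bipartiteBelow (s := U) (t := U)
    (fun u v => ∃ b, 2 ≤ (non G U b).card ∧ Witness G u b v)
  exact this.symm

/-- few pairs of vertices of `U` are not good -/
lemma not_good (G : SimpleGraph V) (hW : Witnessed G) (U : Finset V) (K : ℕ) (hK4 : 4 ≤ K)
    (hU : 5 ≤ U.card) (hK : ∀ u ∈ U, K * (nb G U u).card ≤ U.card) (u : V) (hu : u ∈ U) :
    (U.filter fun v => ¬ Good G U u v).card ≤
      1 + ((nb G U u).card + (bad G U u).card + (bad' G U u).card) := by
  have hsub : (U.filter fun v => ¬ Good G U u v) ⊆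
      insert u (nb G U u ∪ bad G U u ∪ bad' G U u) := by
    intro v hv
    rw [mem_filter] at hv
    obtain ⟨hvU, hv⟩ := hv
    rw [mem_insert, mem_union, mem_union]
    by_cases huv : v = u
    · exact Or.inl huv
    right
    by_cases hadj : G.Adj u v
    · left; left
      unfold nb
      rw [mem_filter]
      exact ⟨hvU, hadj⟩
    have key : ∀ x y b : V, y ∈ U → Witness G x b y → ¬ 2 ≤ (non G U b).card →
        b ∈ priv G U y := by
      intro x y b hy hw hlt
      unfold priv
      rw [mem_filter]
      refine ⟨mem_univ _, ?_⟩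
      have h1 := hw.mem_non hy
      have h2 : (non G U b).card ≤ 1 := by omega
      exact (card_eq_one.1 (le_antisymm h2 (card_pos.2 ⟨y, h1⟩))).elim fun z hz => by
        rw [hz, mem_singleton] at h1
        rw [hz, h1]
    rcases hW u v (Ne.symm huv) hadj with h | ⟨b, hb⟩ | ⟨b, hb⟩
    · exfalso
      have h1 : U ⊆ insert u (insert v (nb G U u ∪ nb G U v)) := by
        intro w hw
        rw [mem_insert, mem_insert, mem_union]
        by_cases h1 : w = u
        · exact Or.inl h1
        by_cases h2 : w = v
        · exact Or.inr (Or.inl h2)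
        right; right
        unfold nb
        rw [mem_filter, mem_filter]
        rcases h w h1 h2 with h3 | h3
        · exact Or.inl ⟨hw, h3.symm⟩
        · exact Or.inr ⟨hw, h3.symm⟩
      have h2 := card_le_card h1
      have h3 := card_insert_le u (insert v (nb G U u ∪ nb G U v))
      have h4 := card_insert_le v (nb G U u ∪ nb G U v)
      have h5 := card_union_le (nb G U u) (nb G U v)
      have h6 := hK u hu
      have h7 := hK v hvU
      have h8 := Nat.mul_le_mul_right (nb G U u).card hK4
      have h9 := Nat.mul_le_mul_right (nb G U v).card hK4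
      omega
    · by_cases h2 : 2 ≤ (non G U b).card
      · left; right
        unfold bad
        rw [mem_filter]
        exact ⟨hvU, b, h2, hb⟩
      · exact absurd ⟨Ne.symm huv, Or.inl ⟨b, key u v b hvU hb h2, hb⟩⟩ hv
    · by_cases h2 : 2 ≤ (non G U b).card
      · right
        unfold bad'
        rw [mem_filter]
        exact ⟨hvU, b, h2, hb⟩
      · exact absurd ⟨Ne.symm huv, Or.inr ⟨b, key v u b hu hb h2, hb⟩⟩ hv
  have h1 := card_le_card hsub
  have h2 := card_insert_le u (nb G U u ∪ bad G U u ∪ bad' G U u)
  have h3 := card_union_le (nb G U u ∪ bad G U u) (bad' G U u)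
  have h4 := card_union_le (nb G U u) (bad G U u)
  omega

/-- the sets `priv v` are disjoint -/
lemma sum_priv (G : SimpleGraph V) (U : Finset V) :
    ∑ v ∈ U, (priv G U v).card ≤ Fintype.card V := by
  rw [← card_biUnion]
  · exact card_le_univ _
  · intro v _ v' _ hne
    rw [Function.onFun, disjoint_left]
    intro b hb hb'
    unfold priv at hb hb'
    rw [mem_filter] at hb hb'
    have := hb.2.symm.trans hb'.2
    exact hne (singleton_injective this)

end Pool.Agent.Q107.TotCrit
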