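import Mathlib

/-!
# 3-total-domination edge-critical graphs: definitions and the witness lemma
-/

set_option autoImplicit false

namespace Pool.Agent.Q107.TotCrit

variable {V : Type*}

/-- `S` is a total dominating set: every vertex (also those of `S`) has a neighbour in `S` -/
def TotalDominating (G : SimpleGraph V) (S : Finset V) : Prop := ∀ v : V, ∃ s ∈ S, G.Adj v s

/-- the total domination number -/
noncomputable def totalNumber (G : SimpleGraph V) : ℕ :=
  sInf {m | ∃ S : Finset V, S.card = m ∧ TotalDominating G S}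

/-- `3_t`EC graphs: no isolated vertices, `γ_t(G) = 3` and `γ_t(G + uv) < 3` for all non-adjacent
`u ≠ v` -/
structure ThreeTEC (G : SimpleGraph V) : Prop where
  no_isolated : ∀ v : V, ∃ w, G.Adj v w
  number : totalNumber G = 3
  critical : ∀ u v : V, u ≠ v → ¬ G.Adj u v → totalNumber (G ⊔ SimpleGraph.edge u v) < 3

/-- `v` is the only vertex which is not totally dominated by the adjacent vertices `u`, `b` -/
structure Witness (G : SimpleGraph V) (u b v : V) : Prop where
  ne : u ≠ v
  ub : G.Adj u b
  uv : ¬ G.Adj u v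
  vb : ¬ G.Adj v b
  all : ∀ w, w ≠ v → G.Adj w u ∨ G.Adj w b

/-- the property of `3_t`EC graphs which is used in the proof -/
def Witnessed (G : SimpleGraph V) : Prop :=
  ∀ u v : V, u ≠ v → ¬ G.Adj u v →
    (∀ w, w ≠ u → w ≠ v → G.Adj w u ∨ G.Adj w v) ∨ (∃ b, Witness G u b v) ∨ ∃ b, Witness G v b u

lemma sup_edge_adj {G : SimpleGraph V} {u v x y : V} (huv : u ≠ v) :
    (G ⊔ SimpleGraph.edge u v).Adj x y ↔ G.Adj x y ∨ (x = u ∧ y = v) ∨ (x = v ∧ y = u) := by
  rw [SimpleGraph.sup_adj, SimpleGraph.edge_adj]
  constructor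
  · rintro (h | ⟨h, _⟩)
    · exact Or.inl h
    · rcases h with h | h
      · exact Or.inr (Or.inl h)
      · exact Or.inr (Or.inr h)
  · rintro (h | h | h)
    · exact Or.inl h
    · exact Or.inr ⟨Or.inl h, by rw [h.1, h.2]; exact huv⟩
    · exact Or.inr ⟨Or.inr h, by rw [h.1, h.2]; exact huv.symm⟩

/-- the case analysis when `{a, b}` is a total dominating set of `G + uv` and the vertex `v` is not
adjacent to `a = u` or `b` in `G` -/
lemma cases_aux {G : SimpleGraph V} {u v b : V} (huv : u ≠ v) (hn : ¬ G.Adj u v) (hub : u ≠ b)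
    (hS : ∀ w, (G ⊔ SimpleGraph.edge u v).Adj w u ∨ (G ⊔ SimpleGraph.edge u v).Adj w b)
    (hv : ¬ G.Adj v b) :
    (∀ w, w ≠ u → w ≠ v → G.Adj w u ∨ G.Adj w v) ∨ ∃ b, Witness G u b v := by
  by_cases hbv : b = v
  · left
    intro w hwu hwv
    subst hbv
    rcases hS w with h | h
    · rw [sup_edge_adj huv] at h
      rcases h with h | h | h
      · exact Or.inl h
      · exact absurd h.1 hwu
      · exact absurd h.1 hwv
    · rw [sup_edge_adj huv] at h
      rcases h with h | h | h
      · exact Or.inr h
      · exact absurd h.1 hwu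
      · exact absurd h.1 hwv
  · right
    refine ⟨b, huv, ?_, hn, hv, ?_⟩
    · rcases hS u with h | h
      · exact absurd h ((G ⊔ SimpleGraph.edge u v).loopless.irrefl u)
      · rw [sup_edge_adj huv] at h
        rcases h with h | h | h
        · exact h
        · exact absurd h.2 hbv
        · exact absurd h.1 huv
    · intro w hw
      rcases hS w with h | h
      · rw [sup_edge_adj huv] at h
        rcases h with h | h | h
        · exact Or.inl h
        · exact absurd h.2 huv
        · exact absurd h.1 hw
      · rw [sup_edge_adj huv] at h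
        rcases h with h | h | h
        · exact Or.inr h
        · exact absurd h.2 hbv
        · exact absurd h.2.symm hub

lemma witnessed [Finite V] {G : SimpleGraph V} (hG : ThreeTEC G) : Witnessed G := by
  classical
  have := Fintype.ofFinite V
  intro u v huv hn
  have hne : {m | ∃ S : Finset V, S.card = m ∧
      TotalDominating (G ⊔ SimpleGraph.edge u v) S}.Nonempty := by
    refine ⟨_, Finset.univ, rfl, fun x => ?_⟩
    obtain ⟨y, hy⟩ := hG.no_isolated x
    exact ⟨y, Finset.mem_univ y, Or.inl hy⟩
  obtain ⟨S, hSc, hS⟩ := Nat.sInf_mem hne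
  have hlt : S.card < 3 := by
    rw [hSc]
    exact hG.critical u v huv hn
  have hnot : ¬ TotalDominating G S := by
    intro h
    have h1 : totalNumber G ≤ S.card := Nat.sInf_le ⟨S, rfl, h⟩
    rw [hG.number] at h1
    omega
  -- `S = {a, b}`
  obtain ⟨a, haS, _⟩ := hS u
  obtain ⟨b, hbS, hab⟩ := hS a
  have habne : a ≠ b := fun h => by
    rw [h] at hab
    exact (G ⊔ SimpleGraph.edge u v).loopless.irrefl b hab
  have hSab : S = {a, b} := by
    symm
    apply Finset.eq_of_subset_of_card_le
    · intro x hx
      rw [Finset.mem_insert, Finset.mem_singleton] at hx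
      rcases hx with rfl | rfl
      · exact haS
      · exact hbS
    · rw [Finset.card_pair habne]
      omega
  have hS' : ∀ w, (G ⊔ SimpleGraph.edge u v).Adj w a ∨ (G ⊔ SimpleGraph.edge u v).Adj w b := by
    intro w
    obtain ⟨s, hs, hws⟩ := hS w
    rw [hSab, Finset.mem_insert, Finset.mem_singleton] at hs
    rcases hs with rfl | rfl
    · exact Or.inl hws
    · exact Or.inr hws
  obtain ⟨w, hwa, hwb⟩ : ∃ w, ¬ G.Adj w a ∧ ¬ G.Adj w b := by
    by_contra hcon
    push Not at hcon
    apply hnot
    intro w
    by_cases h : G.Adj w a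
    · exact ⟨a, haS, h⟩
    · exact ⟨b, hbS, hcon w h⟩
  have hcomm : G ⊔ SimpleGraph.edge u v = G ⊔ SimpleGraph.edge v u := by
    rw [SimpleGraph.edge_comm]
  have hn' : ¬ G.Adj v u := fun h => hn h.symm
  rcases hS' w with h | h
  · rw [sup_edge_adj huv] at h
    rcases h with h | ⟨h1, h2⟩ | ⟨h1, h2⟩
    · exact absurd h hwa
    · -- `w = u`, `a = v`
      subst h1 h2
      rw [hcomm] at hS'
      rcases cases_aux huv.symm hn' habne hS' hwb with h | h
      · exact Or.inl fun x h1 h2 => (h x h2 h1).symm
      · exact Or.inr (Or.inr h)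
    · subst h1 h2
      rcases cases_aux huv hn habne hS' hwb with h | h
      · exact Or.inl h
      · exact Or.inr (Or.inl h)
  · rw [sup_edge_adj huv] at h
    rcases h with h | ⟨h1, h2⟩ | ⟨h1, h2⟩
    · exact absurd h hwb
    · subst h1 h2
      rw [hcomm] at hS'
      rcases cases_aux huv.symm hn' habne.symm (fun x => (hS' x).symm) hwa with h | h
      · exact Or.inl fun x h1 h2 => (h x h2 h1).symm
      · exact Or.inr (Or.inr h)
    · subst h1 h2
      rcases cases_aux huv hn habne.symm (fun x => (hS' x).symm) hwa with h | h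
      · exact Or.inl h
      · exact Or.inr (Or.inl h)

end Pool.Agent.Q107.TotCrit
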