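import Pool.Agent.Q107.TotCrit.Clique

/-!
# `K_p`-free witnessed graphs have bounded order
-/

set_option autoImplicit false
set_option linter.unusedSectionVars false

namespace Pool.Agent.Q107.TotCrit

open Finset Classical

variable {V : Type*} [Fintype V]

/-- bound for the constant of the sparse set -/
def bd (F : ℕ → ℕ) : ℕ → ℕ → ℕ
  | 0, _ => 0
  | q + 1, C => max C (bd F q (C * F C))

/-- In a graph without `q`-cliques inside `U` one finds, for every function `F`, a subset `U'` of
relative size `1 / C'`, in which all degrees are at most `|U'| / F C'`. -/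
lemma chain (G : SimpleGraph V) (F : ℕ → ℕ) (n : ℕ) (q : ℕ) :
    ∀ (C : ℕ) (U : Finset V), 1 ≤ C → (∀ c, 1 ≤ c → 1 ≤ F c) → U.Nonempty → n ≤ C * U.card →
      (∀ t ⊆ U, ¬ G.IsNClique q t) →
      ∃ (C' : ℕ) (U' : Finset V), 1 ≤ C' ∧ C' ≤ bd F q C ∧ U'.Nonempty ∧ n ≤ C' * U'.card ∧
        ∀ u ∈ U', F C' * (nb G U' u).card ≤ U'.card := by
  induction q with
  | zero =>
    intro C U _ _ _ _ h
    exact absurd (by rw [SimpleGraph.isNClique_iff]; simp) (h ∅ (empty_subset U))
  | succ q ih =>
    intro C U hC hF hU hn h
    by_cases hd : ∀ u ∈ U, F C * (nb G U u).card ≤ U.card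
    · exact ⟨C, U, hC, le_max_left _ _, hU, hn, hd⟩
    · push Not at hd
      obtain ⟨u, huU, hu⟩ := hd
      have hne : (nb G U u).Nonempty := by
        rw [← card_pos]
        by_contra hcon
        have : (nb G U u).card = 0 := by omega
        rw [this] at hu
        omega
      have hFC := hF C hC
      obtain ⟨C', U', h1, h2, h3, h4, h5⟩ := ih (C * F C) (nb G U u) (Nat.mul_pos hC hFC) hF hne
        (by
          calc n ≤ C * U.card := hn
            _ ≤ C * (F C * (nb G U u).card) := Nat.mul_le_mul_left _ hu.le
            _ = C * F C * (nb G U u).card := by ring) (by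
          intro t ht htc
          refine h (insert u t) ?_ (htc.insert ?_)
          · intro x hx
            rcases mem_insert.1 hx with hx | hx
            · rw [hx]; exact huU
            · exact mem_of_mem_filter x (ht hx)
          · intro x hx
            have := ht hx
            unfold nb at this
            rw [mem_filter] at this
            exact this.2)
      exact ⟨C', U', h1, h2.trans (le_max_right _ _), h3, h4, h5⟩

/-- the bound for the order of `K_p`-free `3_t`EC graphs -/
def orderBound (p : ℕ) : ℕ :=
  (Finset.range (bd (fun c => 80 * c * sz (4 * c) p) p 1 + 1)).sup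
    fun c => c * (4 * sz (4 * c) p + 4)

theorem card_le (G : SimpleGraph V) (hW : Witnessed G) (p : ℕ) (hp : G.CliqueFree p) :
    Fintype.card V ≤ orderBound p := by
  by_cases hV : Nonempty V
  · obtain ⟨C, U, h1, h2, _, h4, h5⟩ := chain G (fun c => 80 * c * sz (4 * c) p)
      (Fintype.card V) p 1 univ le_rfl (fun c hc => by
        have := sz_pos (4 * c) p
        have h := Nat.mul_pos hc this
        show 1 ≤ 80 * c * sz (4 * c) p
        nlinarith) univ_nonempty (by rw [one_mul, card_univ]) (fun t _ => hp t)
    have h6 := small_of_sparse G hW p hp C h1 U h4 h5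
    have h7 : C * (4 * sz (4 * C) p + 4) ≤ orderBound p := by
      unfold orderBound
      exact Finset.le_sup (f := fun c => c * (4 * sz (4 * c) p + 4))
        (mem_range.2 (Nat.lt_succ_of_le h2))
    exact h4.trans ((Nat.mul_le_mul_left _ h6).trans h7)
  · rw [not_nonempty_iff] at hV
    rw [Fintype.card_eq_zero]
    exact Nat.zero_le _

end Pool.Agent.Q107.TotCrit
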